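import Pool.Agent.helper47.SC.Spec

/-! MP_0015b7_an, row EPS. -/

set_option autoImplicit false

namespace Pool.Agent.SC

private theorem EPS_pow (m : ℕ → ℕ) (hm : ∀ k, 10 ≤ m k) (k : ℕ) : 10 ^ k ≤ EE m k := by
  induction k with
  | zero => exact le_of_eq rfl
  | succ k ih =>
    have h1 : EE m (k + 1) = EE m k * m k := rfl
    rw [h1, pow_succ]
    exact Nat.mul_le_mul ih (hm k)

private theorem EPS_one (m : ℕ → ℕ) (hm : ∀ k, 10 ≤ m k) (k : ℕ) : 1 ≤ EE m k :=
  (Nat.one_le_pow _ _ (by norm_num)).trans (EPS_pow m hm k)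

private theorem EPS_le (m : ℕ → ℕ) (hm : ∀ k, 10 ≤ m k) (i : ℕ) : eps m i ≤ (1 / 10 : ℝ) ^ (i + 1) := by
  unfold eps
  rw [one_div_pow]
  refine one_div_le_one_div_of_le (by positivity) ?_
  exact_mod_cast EPS_pow m hm (i + 1)

private theorem EPS_geom (k : ℕ) :
    ∑ i ∈ Finset.range k, (1 / 10 : ℝ) ^ (i + 1) = 1 / 9 - (1 / 9) * (1 / 10) ^ k := by
  induction k with
  | zero => simp
  | succ k ih =>
    rw [Finset.sum_range_succ, ih, pow_succ (1 / 10 : ℝ) k]
    ring

theorem EPS : EPS_stmt := by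
  intro m hm
  have hpos : ∀ i, 0 < eps m i := by
    intro i
    unfold eps
    have h1 : 1 ≤ EE m (i + 1) := EPS_one m hm (i + 1)
    have h2 : (0 : ℝ) < (EE m (i + 1) : ℝ) := by
      exact_mod_cast h1
    positivity
  refine ⟨hpos, ?_, ?_, EPS_one m hm⟩
  · have h1 : Summable fun i : ℕ => (1 / 10 : ℝ) ^ (i + 1) :=
      (summable_nat_add_iff 1).2 (summable_geometric_of_lt_one (by norm_num) (by norm_num))
    exact Summable.of_nonneg_of_le (fun i => (hpos i).le) (EPS_le m hm) h1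
  · intro k
    refine (Finset.sum_le_sum fun i _ => EPS_le m hm i).trans ?_
    rw [EPS_geom k]
    have : (0 : ℝ) ≤ (1 / 10 : ℝ) ^ k := by positivity
    linarith

end Pool.Agent.SC
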