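import Pool.Agent.helper82.SC.SpecB

/-!
# sp: module AB, the black arm
-/

namespace Pool.Agent.helper82.SC

open Relation

/-- adjacent sites have distance one -/
theorem AB_adj {u v : V} (h : TAdj u v) : ‖ps u - ps v‖ ≤ 1 := by
  have h3 : Real.sqrt 3 * Real.sqrt 3 = 3 := Real.mul_self_sqrt (by norm_num)
  have key : ∀ a b : ℝ, a ^ 2 + a * b + b ^ 2 = 1 →
      ‖(⟨a + b / 2, Real.sqrt 3 / 2 * b⟩ : ℂ)‖ ≤ 1 := by
    intro a b hab
    have h1 := Complex.sq_norm (⟨a + b / 2, Real.sqrt 3 / 2 * b⟩ : ℂ)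
    rw [Complex.normSq_mk] at h1
    have h2 : (a + b / 2) * (a + b / 2) + Real.sqrt 3 / 2 * b * (Real.sqrt 3 / 2 * b) = 1 := by
      have : Real.sqrt 3 / 2 * b * (Real.sqrt 3 / 2 * b) = Real.sqrt 3 * Real.sqrt 3 / 4 * b ^ 2 := by
        ring
      rw [this, h3]
      linarith
    rw [h2] at h1
    have h4 := norm_nonneg (⟨a + b / 2, Real.sqrt 3 / 2 * b⟩ : ℂ)
    nlinarith
  obtain ⟨i, j⟩ := u
  have hd : ps (i, j) - ps v = ⟨((i : ℝ) - v.1) + ((j : ℝ) - v.2) / 2,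
      Real.sqrt 3 / 2 * ((j : ℝ) - v.2)⟩ := by
    apply Complex.ext
    · simp only [ps, Complex.sub_re]; ring
    · simp only [ps, Complex.sub_im]; ring
  rw [hd]
  apply key
  rcases h with h | h | h | h | h | h <;> subst h <;> push_cast <;> ring

theorem AB_con_end {W : Set V} {u v : V} (h : Con W u v) : v ∈ W := by
  obtain ⟨hu, hr⟩ := h
  induction hr with
  | refl => exact hu
  | tail _ h2 _ => exact h2.2

theorem AB (hPI : PI_stmt) (hCN : CN_stmt) (hWPB : WPB_stmt) (hGP : GP1_stmt) (hSB : SB_stmt) :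
    AB_stmt := by
  intro n D hn hD j x y R hx hy hfar hr
  obtain ⟨π, hπU, hπc, hπx, hπy, hπd⟩ := hPI n D hn hD x y hx hy
  obtain ⟨_, hG2, _, _, _⟩ := hGP n D hn hD
  obtain ⟨hS1, hS2, _, _⟩ := hSB
  have h1 := hCN D π x y j hπU hπc hπx hπy
  have h2 : D.Mx j π ≤ prob D.U (ArmB D j π) := by
    apply hWPB
    intro f d hf hd
    by_contra hne
    obtain ⟨w, hw, hw4⟩ := hG2 f hf.1 d hd
    have h3 := hfar _ hne w hw
    have h4 := hπd f hf d
    have h5 : ‖pd x - n * w‖ ≤ ‖ps (S f d) - pd x‖ + ‖ps (S f d) - n * w‖ := by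
      calc ‖pd x - n * w‖ = ‖-(ps (S f d) - pd x) + (ps (S f d) - n * w)‖ := by
            congr 1; ring
        _ ≤ ‖-(ps (S f d) - pd x)‖ + ‖ps (S f d) - n * w‖ := norm_add_le _ _
        _ = _ := by rw [norm_neg]
    linarith
  have h3 : prob D.U (ArmB D j π) ≤
      prob D.U (fun s => ArmE (pd x) (8 * ‖pd x - pd y‖ + 8) (R - 8) (D.U \ s)) := by
    apply hS2
    rintro s hs ⟨u, w, hc, ⟨f, d, hf, hfd⟩, v, hv, hwv, hvj⟩
    refine ⟨u, w, ?_, ?_, ?_⟩
    · rw [Finset.coe_sdiff]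
      exact hc
    · rw [← hfd]
      exact hπd f hf d
    · have hwU : w ∈ D.U := by
        have := AB_con_end hc
        exact this.1
      obtain ⟨z, hz1, hz2⟩ := hwv.exists_dart
      have hzU : D.FU z.1 := ⟨z.2, by rw [hz1]; exact hwU⟩
      obtain ⟨w', hw', hw4⟩ := hG2 z.1 hzU (z.2 + 1) (by rw [hz2]; exact hv)
      rw [hz2] at hw' hw4
      have h5 := hfar _ hvj w' hw'
      have h6 := AB_adj hwv
      have h7 : ‖pd x - n * w'‖ ≤ ‖ps w - pd x‖ + ‖ps w - ps v‖ + ‖ps v - n * w'‖ := by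
        calc ‖pd x - n * w'‖ = ‖-(ps w - pd x) + (ps w - ps v) + (ps v - n * w')‖ := by
              congr 1; ring
          _ ≤ ‖-(ps w - pd x) + (ps w - ps v)‖ + ‖ps v - n * w'‖ := norm_add_le _ _
          _ ≤ ‖-(ps w - pd x)‖ + ‖ps w - ps v‖ + ‖ps v - n * w'‖ := by
              gcongr; exact norm_add_le _ _
          _ = _ := by rw [norm_neg]
      linarith
  have h4 := hS1 D.U (ArmE (pd x) (8 * ‖pd x - pd y‖ + 8) (R - 8))
  calc |D.P j x - D.P j y| ≤ D.Mx j π := h1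
    _ ≤ _ := h2
    _ ≤ _ := h3
    _ = _ := h4

end Pool.Agent.helper82.SC
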