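import Pool.Agent.helper82.SC.SpecA

/-!
# sp: module AC, the value at the corner
-/

namespace Pool.Agent.helper82.SC

open Relation

theorem AC (hFC : FC_stmt) (hCO : CO_stmt) : AC_stmt := by
  intro D j
  obtain ⟨_, hc, _, _⟩ := hCO D
  obtain ⟨hFU, hnFU, _, hw⟩ := hc j
  have hset : {ψ | ψ ∈ D.Conf (D.a j) ∧ D.Jn ψ (D.a j) j} = D.Conf (D.a j) := by
    ext ψ
    simp only [Set.mem_ofPred_eq, and_iff_left_iff_imp]
    intro hψ
    obtain ⟨_, hs, ho⟩ := hψ
    have h1 : ψ (star (D.a j)) = 1 := by rw [ho _ hnFU, hw]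
    have h2 := hs (D.a j)
    rw [if_pos (Or.inl rfl), h1] at h2
    have h3 : ψ (D.a j) ≠ 1 := by
      intro h
      rw [h] at h2
      exact absurd h2 (by decide)
    unfold Dom.Jn zp
    rw [if_neg h3]
    exact ReflTransGen.refl
  unfold Dom.P
  rw [hset, (hFC D (D.a j) hFU).2]
  push_cast
  exact div_self (by positivity)

end Pool.Agent.helper82.SC
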