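import Pool.Agent.helper82.SC.SpecB

/-!
# sp: module DS, the square is a discrete domain
-/

namespace Pool.Agent.helper82.SC

theorem DS (h1 : SQT_stmt) (h2 : SQP_stmt) (h3 : SQF_stmt) : DS_stmt := by
  intro n hn
  obtain ⟨ha, hb, hc⟩ := h1 n hn
  exact ⟨{ U := Usq n
           sec := secsq n
           a := asq n
           third := fun m => (ha m).1
           first := fun m => (ha m).2.1
           second := fun m => (ha m).2.2.1
           sec_first := fun m => (ha m).2.2.2.1
           sec_second := fun m => (ha m).2.2.2.2
           only := hb
           outer := hc
           poincare := h2 n hn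
           fconn := h3 n hn }, rfl, fun _ => rfl, fun _ => rfl⟩

end Pool.Agent.helper82.SC
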